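import Pool.Agent.Helper63.XP.StB

/-!
# Project XP (MP_c973ff_an), module XNX: norm of the element `gx`
-/

set_option autoImplicit false

namespace Pool.Agent.Helper8.XP

open Pool.Agent.Helper63.XP
open Finset Filter Topology MeasureTheory
open scoped ENNReal
open Pool.Agent.Helper63.XR (th rec gx cx StNew)
open Pool.Agent.Helper49.KX (FS cmp tw un ev Cov MS LY Rep act nrm IsFp StEvm StAlg)

theorem fn_meas {p : ℝ≥0∞} {M : MS} (η : LY p M) : @Measurable M.Y ℂ M.mY _ (fn η) := by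
  letI := M.mY
  exact (Lp.stronglyMeasurable (show Lp ℂ p M.ν from η)).measurable

theorem fn_add {p : ℝ≥0∞} [Fact (1 ≤ p)] {M : MS} (η η' : LY p M) :
    AE M (fun y => fn (η + η') y = fn η y + fn η' y) := by
  letI := M.mY
  exact Lp.coeFn_add (show Lp ℂ p M.ν from η) (show Lp ℂ p M.ν from η')

theorem fn_smul {p : ℝ≥0∞} [Fact (1 ≤ p)] {M : MS} (c : ℂ) (η : LY p M) :
    AE M (fun y => fn (c • η) y = c * fn η y) := by
  letI := M.mY
  exact Lp.coeFn_smul c (show Lp ℂ p M.ν from η)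

theorem fn_zero {p : ℝ≥0∞} [Fact (1 ≤ p)] {M : MS} : AE M (fun y => fn (0 : LY p M) y = 0) := by
  letI := M.mY
  exact Lp.coeFn_zero ℂ p M.ν

theorem fn_sum {p : ℝ≥0∞} [Fact (1 ≤ p)] {M : MS} {ι : Type} (s : Finset ι) (η : ι → LY p M) :
    AE M (fun y => fn (∑ i ∈ s, η i) y = ∑ i ∈ s, fn (η i) y) := by
  classical
  letI := M.mY
  induction s using Finset.induction_on with
  | empty =>
    have h : ∀ᵐ y ∂M.ν, fn (0 : LY p M) y = 0 := fn_zero
    show ∀ᵐ y ∂M.ν, _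
    filter_upwards [h] with y hy
    rw [Finset.sum_empty, Finset.sum_empty, hy]
  | insert a s ha ih =>
    have h : ∀ᵐ y ∂M.ν, fn (η a + ∑ i ∈ s, η i) y = fn (η a) y + fn (∑ i ∈ s, η i) y := fn_add _ _
    have h' : ∀ᵐ y ∂M.ν, fn (∑ i ∈ s, η i) y = ∑ i ∈ s, fn (η i) y := ih
    show ∀ᵐ y ∂M.ν, _
    filter_upwards [h, h'] with y hy hy'
    rw [Finset.sum_insert ha, Finset.sum_insert ha, hy, hy']

theorem fn_norm {p : ℝ≥0∞} [Fact (1 ≤ p)] (hpt : p ≠ ∞) {M : MS} (η : LY p M) :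
    ENNReal.ofReal (‖η‖ ^ p.toReal) =
      @MeasureTheory.lintegral M.Y M.mY M.ν (fun y => ‖fn η y‖ₑ ^ p.toReal) := by
  letI := M.mY
  have hp0 : p ≠ 0 := fun h => by
    have h1 : (1 : ℝ≥0∞) ≤ p := Fact.out
    rw [h] at h1
    exact absurd h1 (by norm_num)
  have hP : 0 < p.toReal := ENNReal.toReal_pos hp0 hpt
  have h1 : ‖η‖ = (eLpNorm (fn η) p M.ν).toReal := Lp.norm_def (show Lp ℂ p M.ν from η)
  have h2 : eLpNorm (fn η) p M.ν ≠ ∞ := Lp.eLpNorm_ne_top (show Lp ℂ p M.ν from η)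
  rw [h1, ← ENNReal.ofReal_rpow_of_nonneg ENNReal.toReal_nonneg hP.le, ENNReal.ofReal_toReal h2,
    eLpNorm_eq_lintegral_rpow_enorm_toReal hp0 hpt, ← ENNReal.rpow_mul, one_div_mul_cancel hP.ne',
    ENNReal.rpow_one]

theorem cmp_cmp {X : Type} [TopologicalSpace X] (h : X ≃ₜ X) (m a : ℤ) (F : C(X, ℂ)) :
    cmp h m (cmp h a F) = cmp h (a + m) F := by
  ext x
  show F ((h ^ a : X ≃ₜ X) ((h ^ m : X ≃ₜ X) x)) = F ((h ^ (a + m) : X ≃ₜ X) x)
  rw [zpow_add]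
  rfl

theorem act_gx {p : ℝ≥0∞} [Fact (1 ≤ p)] {X : Type} [TopologicalSpace X] [CompactSpace X]
    (h : X ≃ₜ X) (ρ : Rep p X) {N : ℕ} (x0 : Matrix (Fin N) (Fin N) ℂ) (F : C(X, ℂ))
    (ξ : ℤ →₀ LY p ρ.M) (m : ℤ) :
    act p h ρ (gx h x0 F) ξ m = ∑ a : Fin N, ∑ b : Fin N,
      x0 a b • ρ.π (cmp h (m - ((a : ℕ) : ℤ)) F) (ξ (m - ((a : ℕ) : ℤ) + ((b : ℕ) : ℤ))) := by
  have hz : ∀ η, ρ.π 0 η = 0 := by
    intro η
    have h1 := ρ.add 0 0 η
    rw [add_zero] at h1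
    have h2 : ρ.π 0 η + 0 = ρ.π 0 η + ρ.π 0 η := by rw [add_zero]; exact h1
    exact (add_left_cancel h2).symm
  let Φ : ℤ → C(X, ℂ) →+ LY p ρ.M := fun n =>
    { toFun := fun φ => ρ.π (cmp h m φ) (ξ (m - n))
      map_zero' := by
        have h1 : cmp h m (0 : C(X, ℂ)) = 0 := by ext x; rfl
        show ρ.π (cmp h m 0) (ξ (m - n)) = 0
        rw [h1, hz]
      map_add' := by
        intro φ φ'
        have h1 : cmp h m (φ + φ') = cmp h m φ + cmp h m φ' := by ext x; rfl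
        show ρ.π (cmp h m (φ + φ')) (ξ (m - n)) = _
        rw [h1, ρ.add] }
  have h1 : ∀ g : FS X, act p h ρ g ξ m = Finsupp.liftAddHom Φ g := fun g =>
    (Finsupp.liftAddHom_apply Φ g).symm
  rw [h1]
  unfold gx
  rw [map_sum]
  refine Finset.sum_congr rfl fun a _ => ?_
  rw [map_sum]
  refine Finset.sum_congr rfl fun b _ => ?_
  rw [Finsupp.liftAddHom_apply_single]
  show ρ.π (cmp h m (x0 a b • cmp h (-((a : ℕ) : ℤ)) F)) (ξ (m - (((a : ℕ) : ℤ) - ((b : ℕ) : ℤ)))) = _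
  have h2 : cmp h m (x0 a b • cmp h (-((a : ℕ) : ℤ)) F) = x0 a b • cmp h (m - ((a : ℕ) : ℤ)) F := by
    have h3 : cmp h m (x0 a b • cmp h (-((a : ℕ) : ℤ)) F) =
        x0 a b • cmp h m (cmp h (-((a : ℕ) : ℤ)) F) := by ext x; rfl
    rw [h3, cmp_cmp]
    congr 2
    ring
  rw [h2, ρ.smul]
  congr 3
  ring

theorem hXNX : StXnx := by
  intro hmux hlox hrax hxsc p _ hpt hp2 X _ _ h N x0 f r hr hx0 hf hdis
  have hp1 : (1 : ℝ≥0∞) ≤ p := Fact.out
  have hp0 : p ≠ 0 := fun h => by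
    rw [h] at hp1
    exact absurd hp1 (by norm_num)
  have hP : 0 < p.toReal := ENNReal.toReal_pos hp0 hpt
  have hP1 : 1 ≤ p.toReal := by
    have := ENNReal.toReal_mono hpt hp1
    simpa using this
  refine csInf_le ⟨0, fun c hc => hc.1⟩ ⟨hr, ?_⟩
  intro ρ ξ
  obtain ⟨hat, hh1, hh2, hh3, hh4⟩ := hmux hlox hrax p hpt hp2 X ρ
  letI := ρ.M.mY
  obtain ⟨F, hF⟩ : ∃ F : C(X, ℂ), F = cx f := ⟨_, rfl⟩
  have hFx : ∀ x, F x = ((f x : ℝ) : ℂ) := by
    intro x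
    rw [hF]
    rfl
  rw [← hF]
  -- the finite set of scales
  obtain ⟨T, hT⟩ : ∃ T : Finset ℤ, T = ξ.support.biUnion (fun s => Finset.Icc (s - (N : ℤ)) (s + (N : ℤ))) :=
    ⟨_, rfl⟩
  have hTs : ∀ m, m ∉ T → ξ m = 0 := by
    intro m hm
    by_contra hne
    refine hm ?_
    rw [hT, Finset.mem_biUnion]
    exact ⟨m, Finsupp.mem_support_iff.2 hne, Finset.mem_Icc.2 ⟨by omega, by omega⟩⟩
  have hTab : ∀ m, m ∉ T → ∀ a b : Fin N, ξ (m - ((a : ℕ) : ℤ) + ((b : ℕ) : ℤ)) = 0 := by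
    intro m hm a b
    by_contra hne
    refine hm ?_
    rw [hT, Finset.mem_biUnion]
    have ha := a.2
    have hb := b.2
    exact ⟨_, Finsupp.mem_support_iff.2 hne, Finset.mem_Icc.2 ⟨by omega, by omega⟩⟩
  have hπ0 : ∀ φ, ρ.π φ 0 = 0 := by
    intro φ
    have h1 := (ρ.contr φ).add 0 0
    rw [add_zero] at h1
    have h2 : ρ.π φ 0 + 0 = ρ.π φ 0 + ρ.π φ 0 := by rw [add_zero]; exact h1
    exact (add_left_cancel h2).symm
  have hact0 : ∀ m, m ∉ T → act p h ρ (gx h x0 F) ξ m = 0 := by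
    intro m hm
    rw [act_gx]
    refine Finset.sum_eq_zero fun a _ => Finset.sum_eq_zero fun b _ => ?_
    rw [hTab m hm a b, hπ0, smul_zero]
  rw [tsum_eq_sum (s := T) (fun m hm => by
      rw [hact0 m hm, norm_zero, Real.zero_rpow hP.ne']),
    tsum_eq_sum (s := T) (fun m hm => by
      rw [hTs m hm, norm_zero, Real.zero_rpow hP.ne'])]
  -- the pointwise inequality
  have hae : ∀ᵐ y ∂ρ.M.ν, ∑ m ∈ T, ‖fn (act p h ρ (gx h x0 F) ξ m) y‖ₑ ^ p.toReal ≤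
      ENNReal.ofReal (r ^ p.toReal) * ∑ m ∈ T, ‖fn (ξ m) y‖ₑ ^ p.toReal := by
    have e1 : ∀ᵐ y ∂ρ.M.ν, ∀ m : ℤ, fn (act p h ρ (gx h x0 F) ξ m) y =
        ∑ a : Fin N, hat (cmp h (m - ((a : ℕ) : ℤ)) F) y *
          ∑ b : Fin N, x0 a b * fn (ξ (m - ((a : ℕ) : ℤ) + ((b : ℕ) : ℤ))) y := by
      rw [ae_all_iff]
      intro m
      have g1 : ∀ᵐ y ∂ρ.M.ν, fn (∑ a : Fin N, ∑ b : Fin N,
          x0 a b • ρ.π (cmp h (m - ((a : ℕ) : ℤ)) F) (ξ (m - ((a : ℕ) : ℤ) + ((b : ℕ) : ℤ)))) y =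
          ∑ a : Fin N, fn (∑ b : Fin N,
          x0 a b • ρ.π (cmp h (m - ((a : ℕ) : ℤ)) F) (ξ (m - ((a : ℕ) : ℤ) + ((b : ℕ) : ℤ)))) y :=
        fn_sum _ _
      have g2 : ∀ᵐ y ∂ρ.M.ν, ∀ a : Fin N, fn (∑ b : Fin N,
          x0 a b • ρ.π (cmp h (m - ((a : ℕ) : ℤ)) F) (ξ (m - ((a : ℕ) : ℤ) + ((b : ℕ) : ℤ)))) y =
          ∑ b : Fin N, fn (x0 a b • ρ.π (cmp h (m - ((a : ℕ) : ℤ)) F)
            (ξ (m - ((a : ℕ) : ℤ) + ((b : ℕ) : ℤ)))) y := by
        rw [ae_all_iff]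
        intro a
        exact fn_sum _ _
      have g3 : ∀ᵐ y ∂ρ.M.ν, ∀ a b : Fin N, fn (x0 a b • ρ.π (cmp h (m - ((a : ℕ) : ℤ)) F)
            (ξ (m - ((a : ℕ) : ℤ) + ((b : ℕ) : ℤ)))) y = x0 a b * fn (ρ.π (cmp h (m - ((a : ℕ) : ℤ)) F)
            (ξ (m - ((a : ℕ) : ℤ) + ((b : ℕ) : ℤ)))) y := by
        rw [ae_all_iff]
        intro a
        rw [ae_all_iff]
        intro b
        exact fn_smul _ _
      have g4 : ∀ᵐ y ∂ρ.M.ν, ∀ a b : Fin N, fn (ρ.π (cmp h (m - ((a : ℕ) : ℤ)) F)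
            (ξ (m - ((a : ℕ) : ℤ) + ((b : ℕ) : ℤ)))) y = hat (cmp h (m - ((a : ℕ) : ℤ)) F) y *
              fn (ξ (m - ((a : ℕ) : ℤ) + ((b : ℕ) : ℤ))) y := by
        rw [ae_all_iff]
        intro a
        rw [ae_all_iff]
        intro b
        exact hh1 _ _
      filter_upwards [g1, g2, g3, g4] with y h1 h2 h3 h4
      rw [act_gx, h1]
      refine Finset.sum_congr rfl fun a _ => ?_
      rw [h2 a, Finset.mul_sum]
      refine Finset.sum_congr rfl fun b _ => ?_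
      rw [h3 a b, h4 a b]
      ring
    have e2 : ∀ᵐ y ∂ρ.M.ν, ∀ m : ℤ, m ∉ ξ.support → fn (ξ m) y = 0 := by
      rw [ae_all_iff]
      intro m
      by_cases hm : m ∈ ξ.support
      · exact Filter.Eventually.of_forall fun y hy => absurd hm hy
      · have hz : ∀ᵐ y ∂ρ.M.ν, fn (0 : LY p ρ.M) y = 0 := fn_zero
        filter_upwards [hz] with y hy _
        rw [Finsupp.notMem_support_iff.1 hm]
        exact hy
    have e3 : ∀ᵐ y ∂ρ.M.ν, ∀ j : ℤ, ‖hat (cmp h j F) y‖ ≤ 1 := by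
      rw [ae_all_iff]
      intro j
      have hn : ‖cmp h j F‖ ≤ 1 := by
        rw [ContinuousMap.norm_le _ zero_le_one]
        intro x
        show ‖F ((h ^ j : X ≃ₜ X) x)‖ ≤ 1
        rw [hFx, Complex.norm_real, Real.norm_of_nonneg (hf _).1]
        exact (hf _).2
      have hz : ∀ᵐ y ∂ρ.M.ν, ‖hat (cmp h j F) y‖ ≤ ‖cmp h j F‖ := hh3 _
      filter_upwards [hz] with y hy
      exact hy.trans hn
    have e4 : ∀ᵐ y ∂ρ.M.ν, ∀ (j : ℤ) (i : ℕ), 0 < i → i < N →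
        hat (cmp h j F) y * hat (cmp h (j + i) F) y = 0 := by
      rw [ae_all_iff]
      intro j
      rw [ae_all_iff]
      intro i
      by_cases hi : 0 < i ∧ i < N
      · have hprod : cmp h j F * cmp h (j + i) F = 0 := by
          ext x
          show F ((h ^ j : X ≃ₜ X) x) * F ((h ^ (j + (i : ℤ)) : X ≃ₜ X) x) = 0
          have h1 := hdis ((h ^ j : X ≃ₜ X) x) i hi.1 hi.2
          have h2 : (h ^ (j + (i : ℤ)) : X ≃ₜ X) x = (h ^ (i : ℤ) : X ≃ₜ X) ((h ^ j : X ≃ₜ X) x) := by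
            rw [add_comm, zpow_add]
            rfl
          rw [h2, hFx, hFx, ← Complex.ofReal_mul, h1, Complex.ofReal_zero]
        have hz : ∀ᵐ y ∂ρ.M.ν, hat (cmp h j F * cmp h (j + i) F) y =
            hat (cmp h j F) y * hat (cmp h (j + i) F) y := hh2 _ _
        have hz' : ∀ᵐ y ∂ρ.M.ν, hat 0 y = 0 := hh4
        filter_upwards [hz, hz'] with y hy hy' _ _
        rw [← hy, hprod, hy']
      · exact Filter.Eventually.of_forall fun y h1 h2 => absurd ⟨h1, h2⟩ hi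
    filter_upwards [e1, e2, e3, e4] with y h1 h2 h3 h4
    classical
    let u : ℤ →₀ ℂ := Finsupp.onFinset ξ.support (fun m => if m ∈ ξ.support then fn (ξ m) y else 0)
      (fun m hm => by
        by_contra hc
        exact hm (if_neg hc))
    have hu : ∀ m, u m = fn (ξ m) y := by
      intro m
      show (if m ∈ ξ.support then fn (ξ m) y else 0) = fn (ξ m) y
      by_cases hm : m ∈ ξ.support
      · rw [if_pos hm]
      · rw [if_neg hm, h2 m hm]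
    have hx := hxsc p.toReal N x0 r (fun j => hat (cmp h j F) y) u hP1 hr hx0 h3 h4
    have hu0 : ∀ m, m ∉ T → u m = 0 := by
      intro m hm
      show (if m ∈ ξ.support then fn (ξ m) y else 0) = 0
      rw [if_neg]
      rw [Finsupp.mem_support_iff, not_not]
      exact hTs m hm
    have hu1 : ∀ m, m ∉ T → ∀ a b : Fin N, u (m - ((a : ℕ) : ℤ) + ((b : ℕ) : ℤ)) = 0 := by
      intro m hm a b
      show (if (m - ((a : ℕ) : ℤ) + ((b : ℕ) : ℤ)) ∈ ξ.support then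
        fn (ξ (m - ((a : ℕ) : ℤ) + ((b : ℕ) : ℤ))) y else 0) = 0
      rw [if_neg]
      rw [Finsupp.mem_support_iff, not_not]
      exact hTab m hm a b
    rw [tsum_eq_sum (s := T) (fun m hm => by
        rw [Finset.sum_eq_zero fun a _ => by
          rw [Finset.sum_eq_zero fun b _ => by rw [hu1 m hm a b, mul_zero], mul_zero], norm_zero,
          Real.zero_rpow hP.ne']),
      tsum_eq_sum (s := T) (fun m hm => by
        rw [hu0 m hm, norm_zero, Real.zero_rpow hP.ne'])] at hx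
    have hconv : ∀ z : ℂ, ‖z‖ₑ ^ p.toReal = ENNReal.ofReal (‖z‖ ^ p.toReal) := by
      intro z
      rw [← ENNReal.ofReal_rpow_of_nonneg (norm_nonneg z) hP.le, ofReal_norm]
    simp_rw [hconv]
    rw [← ENNReal.ofReal_sum_of_nonneg (fun m _ => Real.rpow_nonneg (norm_nonneg _) _),
      ← ENNReal.ofReal_sum_of_nonneg (fun m _ => Real.rpow_nonneg (norm_nonneg _) _),
      ← ENNReal.ofReal_mul (Real.rpow_nonneg hr _)]
    refine ENNReal.ofReal_le_ofReal ?_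
    simp_rw [h1]
    simp_rw [hu] at hx
    exact hx
  -- integration
  have hmeas : ∀ η : LY p ρ.M, Measurable (fun y => ‖fn η y‖ₑ ^ p.toReal) := fun η =>
    (fn_meas η).enorm.pow_const _
  have hint := lintegral_mono_ae hae
  rw [lintegral_finsetSum T (fun m _ => hmeas _),
    lintegral_const_mul _ (Finset.measurable_sum T fun m _ => hmeas _),
    lintegral_finsetSum T (fun m _ => hmeas _)] at hint
  have h1 : ∀ η : LY p ρ.M, ∫⁻ y, ‖fn η y‖ₑ ^ p.toReal ∂ρ.M.ν = ENNReal.ofReal (‖η‖ ^ p.toReal) :=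
    fun η => (fn_norm hpt η).symm
  simp_rw [h1] at hint
  rw [← ENNReal.ofReal_sum_of_nonneg (fun m _ => Real.rpow_nonneg (norm_nonneg _) _),
    ← ENNReal.ofReal_sum_of_nonneg (fun m _ => Real.rpow_nonneg (norm_nonneg _) _),
    ← ENNReal.ofReal_mul (Real.rpow_nonneg hr _)] at hint
  exact (ENNReal.ofReal_le_ofReal_iff (mul_nonneg (Real.rpow_nonneg hr _)
    (Finset.sum_nonneg fun m _ => Real.rpow_nonneg (norm_nonneg _) _))).1 hint

end Pool.Agent.Helper8.XP
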